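import Mathlib

namespace Pool.Agent.Results.MP_425159_co.Parity

open Equiv

theorem result (S : Type) [Fintype S] (op : S → S → S)
    (hl : ∀ a b : S, ∃! x, op a x = b) (hr : ∀ a b : S, ∃! x, op x a = b)
    (hE : ∀ x y : S, op (op (op x y) x) y = x) :
    Fintype.card S % 4 = 0 ∨ Fintype.card S % 4 = 1 := by
  classical
  have cl : ∀ a x y, op a x = op a y → x = y := fun a x y h =>
    (hl a (op a y)).unique h rfl
  have cr : ∀ a x y, op x a = op y a → x = y := fun a x y h =>
    (hr a (op y a)).unique h rfl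
  have i1 : Function.Injective (fun p : S × S => (op p.1 p.2, p.2)) := by
    rintro ⟨a, b⟩ ⟨c, d⟩ h
    simp only [Prod.mk.injEq] at h
    obtain ⟨h1, rfl⟩ := h
    rw [cr _ _ _ h1]
  have i2 : Function.Injective (fun p : S × S => (p.1, op p.1 p.2)) := by
    rintro ⟨a, b⟩ ⟨c, d⟩ h
    simp only [Prod.mk.injEq] at h
    obtain ⟨rfl, h1⟩ := h
    rw [cl _ _ _ h1]
  let σ : Perm (S × S) := Equiv.ofBijective _ (Finite.injective_iff_bijective.1 i1)
  let ρ : Perm (S × S) := Equiv.ofBijective _ (Finite.injective_iff_bijective.1 i2)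
  let s : Perm (S × S) := Equiv.prodComm S S
  have rel : σ * s * ρ * σ = ρ := by
    ext1 ⟨v, y⟩
    show (op (op (op v y) y) (op v y), op v y) = (v, op v y)
    rw [cr y _ _ (hE (op v y) y)]
  have hs : Perm.sign s = 1 := by
    have h := congrArg Perm.sign rel
    simp only [Perm.sign_mul] at h
    have h2 : Perm.sign σ * Perm.sign σ = 1 := Int.units_mul_self _
    have h3 : Perm.sign s * (Perm.sign σ * Perm.sign σ) * Perm.sign ρ = 1 * Perm.sign ρ := by
      rw [one_mul]
      refine Eq.trans ?_ h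
      simp only [mul_comm, mul_left_comm, mul_assoc]
    rw [h2, mul_one] at h3
    exact mul_right_cancel h3
  have hs2 : s ^ 2 = 1 := by
    ext1 ⟨a, b⟩
    rfl
  have hfix : Fintype.card (Function.fixedPoints s) = Fintype.card S := by
    refine Fintype.card_congr
      ⟨fun p => p.1.1, fun a => ⟨(a, a), rfl⟩, ?_, fun a => rfl⟩
    rintro ⟨⟨a, b⟩, h⟩
    have h' : (b, a) = (a, b) := h
    have : b = a := congrArg Prod.fst h'
    subst this
    rfl
  rw [Perm.sign_of_pow_two_eq_one hs2, hfix, Fintype.card_prod] at hs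
  generalize Fintype.card S = n at hs
  have he : Even ((n * n - n) / 2) := by
    by_contra hne
    rw [Nat.not_even_iff_odd] at hne
    rw [hne.neg_one_pow] at hs
    exact absurd hs (by decide)
  obtain ⟨k, hk⟩ := he
  have hle : n ≤ n * n := Nat.le_mul_self n
  have h4 : (n * n) % 4 = ((n % 4) * (n % 4)) % 4 := Nat.mul_mod n n 4
  have h5 : n % 4 = 0 ∨ n % 4 = 1 ∨ n % 4 = 2 ∨ n % 4 = 3 := by omega
  rcases h5 with h | h | h | h
  · exact Or.inl h
  · exact Or.inr h
  · rw [h] at h4
    omega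
  · rw [h] at h4
    omega

end Pool.Agent.Results.MP_425159_co.Parity
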